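import Mathlib

/-! A weak `(2,0)`-ring in the sense of Mahdou whose small finitistic dimension is positive. -/

namespace Pool.Agent.Results.MP_682377_al.Counter

open Polynomial Function

/-- `E` is 2-presented: there is an exact sequence `F₂ → F₁ → F₀ → E → 0` with finitely generated
free `Fᵢ`. -/
def TwoPresented (R E : Type) [CommRing R] [AddCommGroup E] [Module R E] : Prop :=
  ∃ (a b c : ℕ) (f₂ : (Fin a → R) →ₗ[R] (Fin b → R)) (f₁ : (Fin b → R) →ₗ[R] (Fin c → R))
    (f₀ : (Fin c → R) →ₗ[R] E), Exact f₂ f₁ ∧ Exact f₁ f₀ ∧ Surjective f₀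

theorem schanuel {R : Type} [CommRing R] (I : Ideal R) (h : TwoPresented R (R ⧸ I)) :
    Module.FinitePresentation R I := by
  obtain ⟨a, b, c, f₂, f₁, f₀, h2, h1, h0⟩ := h
  let P : Submodule R ((Fin c → R) × R) :=
    LinearMap.eqLocus (f₀ ∘ₗ LinearMap.fst R _ _) (I.mkQ ∘ₗ LinearMap.snd R _ _)
  have hP : ∀ x, x ∈ P ↔ f₀ x.1 = I.mkQ x.2 := fun _ => Iff.rfl
  let p₂ : P →ₗ[R] R := LinearMap.snd R _ _ ∘ₗ P.subtype
  let p₁ : P →ₗ[R] (Fin c → R) := LinearMap.fst R _ _ ∘ₗ P.subtype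
  let g : (Fin b → R) →ₗ[R] P := (LinearMap.inl R _ R ∘ₗ f₁).codRestrict P fun x => by
    rw [hP]; simpa using h1.apply_apply_eq_zero x
  let g' : (Fin b → R) →ₗ[R] LinearMap.ker p₂ := g.codRestrict _ fun x => rfl
  have hg1 : Surjective g' := by
    rintro ⟨⟨⟨x, r⟩, hx⟩, hr⟩
    obtain rfl : r = 0 := hr
    obtain ⟨y, rfl⟩ := (h1 x).1 (by simpa using (hP _).1 hx)
    exact ⟨y, rfl⟩
  have hg2 : (LinearMap.ker g').FG := by
    have : LinearMap.ker g' = LinearMap.range f₂ := by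
      rw [← h2.linearMap_ker_eq]
      ext x
      simp [g', g, Prod.ext_iff]
    rw [this, LinearMap.range_eq_map]
    exact Module.Finite.fg_top.map _
  haveI : Module.FinitePresentation R (LinearMap.ker p₂) :=
    Module.finitePresentation_of_free_of_surjective (N := LinearMap.ker p₂) g' hg1 hg2
  haveI : Module.FinitePresentation R P := Module.finitePresentation_of_ker p₂ fun r => by
    obtain ⟨x, hx⟩ := h0 (I.mkQ r)
    exact ⟨⟨(x, r), hx⟩, rfl⟩
  refine Module.finitePresentation_of_projective_of_exact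
    ((LinearMap.inr R _ R ∘ₗ I.subtype).codRestrict P fun x => by
      rw [hP]; simpa using (Ideal.Quotient.eq_zero_iff_mem.2 x.2).symm) p₁ ?_ ?_ ?_
  · intro x y h
    exact Subtype.ext (congrArg (fun z : P => (z : (Fin c → R) × R).2) h)
  · intro x
    obtain ⟨r, hr⟩ := I.mkQ_surjective (f₀ x)
    exact ⟨⟨(x, r), hr.symm⟩, rfl⟩
  · rintro ⟨⟨x, r⟩, hx⟩
    refine ⟨fun h => ?_, ?_⟩
    · obtain rfl : x = 0 := h
      exact ⟨⟨r, Ideal.Quotient.eq_zero_iff_mem.1 (by simpa using ((hP _).1 hx).symm)⟩, rfl⟩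
    · rintro ⟨y, hy⟩
      rw [← hy]; rfl

theorem pres {R : Type} [CommRing R] (I : Ideal R) (hI : Module.FinitePresentation R I) :
    ∃ (n : ℕ) (g : Fin n → R) (s : Finset (Fin n → R)), (∀ z : Fin n → R, ∑ i, z i * g i ∈ I) ∧
      (∀ x ∈ I, ∃ z : Fin n → R, ∑ i, z i * g i = x) ∧
      ∀ p : (Fin n → R) → Prop, (∀ z ∈ s, p z) → p 0 → (∀ z w, p z → p w → p (z + w)) →
        (∀ c z, ∑ i, z i * g i = 0 → p z → p fun i => c * z i) →
        ∀ z, ∑ i, z i * g i = 0 → p z := by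
  classical
  obtain ⟨n, φ, hφ⟩ := Module.Finite.exists_fin' R I
  obtain ⟨s, hs⟩ := Module.FinitePresentation.fg_ker φ hφ
  let g : Fin n → R := fun i => φ (Pi.single i 1)
  have hg : ∀ z, (φ z : R) = ∑ i, z i * g i := fun z => by
    rw [LinearMap.pi_apply_eq_sum_univ φ z, Submodule.coe_sum]
    refine Finset.sum_congr rfl fun k _ => ?_
    rw [Submodule.coe_smul, smul_eq_mul]
    congr 3
    funext j
    simp [Pi.single_apply, eq_comm]
  have hk : ∀ z, z ∈ Submodule.span R (s : Set (Fin n → R)) ↔ ∑ i, z i * g i = 0 := fun z => by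
    rw [hs, LinearMap.mem_ker, Subtype.ext_iff, hg]; rfl
  refine ⟨n, g, s, fun z => hg z ▸ (φ z).2, fun x hx => ?_, fun p h1 h2 h3 h4 z hz => ?_⟩
  · obtain ⟨z, hz⟩ := hφ ⟨x, hx⟩
    exact ⟨z, by rw [← hg, hz]⟩
  · rw [← hk] at hz
    induction hz using Submodule.span_induction with
    | mem z hz => exact h1 z hz
    | zero => exact h2
    | add z w _ _ hz hw => exact h3 z w hz hw
    | smul c z hz' hz => exact h4 c z ((hk z).1 hz') hz

theorem nonproj {R : Type} [CommRing R] (x y : R) (h : ∀ r, r * x = 0 → r * y = 0 → r = 0)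
    (h' : ∀ a b, x * a + y * b ≠ 1) :
    ∃ (M : Type) (_ : AddCommGroup M) (_ : Module R M) (f₁ : (Fin 1 → R) →ₗ[R] (Fin 2 → R))
      (f₀ : (Fin 2 → R) →ₗ[R] M), Injective f₁ ∧ Exact f₁ f₀ ∧ Surjective f₀ ∧
        ¬ Module.Projective R M := by
  let w : Fin 2 → R := ![x, y]
  let f₁ : (Fin 1 → R) →ₗ[R] (Fin 2 → R) := (LinearMap.proj 0).smulRight w
  have hinj : Injective f₁ := (injective_iff_map_eq_zero f₁).2 fun r hr => by
    funext j
    rw [Subsingleton.elim j 0]
    exact h _ (congrFun hr 0) (congrFun hr 1)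
  refine ⟨(Fin 2 → R) ⧸ LinearMap.range f₁, inferInstance, inferInstance, f₁, Submodule.mkQ _,
    hinj, LinearMap.exact_map_mkQ_range _, Submodule.mkQ_surjective _, fun hp => ?_⟩
  obtain ⟨l, hl⟩ := Module.projective_lifting_property (LinearMap.range f₁).mkQ LinearMap.id
    (Submodule.mkQ_surjective _)
  obtain ⟨r, hr⟩ : ∃ r, r ∘ₗ f₁ = LinearMap.id :=
    (((LinearMap.exact_map_mkQ_range f₁).split_tfae hinj
    (Submodule.mkQ_surjective _)).out 0 1).1 (Exists.intro l hl)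
  have h1 := congrFun (LinearMap.congr_fun hr (fun _ => 1)) 0
  have h2 : f₁ (fun _ => 1) = x • Pi.single 0 1 + y • Pi.single 1 1 := by
    funext j
    fin_cases j <;> simp [f₁, w]
  rw [LinearMap.comp_apply, h2, map_add, map_smul, map_smul] at h1
  exact h' _ _ h1

abbrev D := ℤ[X]
abbrev T := ∀ f : D, D ⧸ Ideal.span {f}

/-- The module of the idealization. -/
def E : Type := ℕ →₀ T

noncomputable instance : AddCommGroup E := inferInstanceAs (AddCommGroup (ℕ →₀ T))
noncomputable instance : Module D E := inferInstanceAs (Module D (ℕ →₀ T))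
noncomputable instance : Module Dᵐᵒᵖ E := inferInstanceAs (Module Dᵐᵒᵖ (ℕ →₀ T))
instance : IsCentralScalar D E := inferInstanceAs (IsCentralScalar D (ℕ →₀ T))

abbrev R := TrivSqZeroExt D E

/-- Coordinates. -/
noncomputable def ev (N : ℕ) (f : D) : E →ₗ[D] D ⧸ Ideal.span {f} where
  toFun x := (show ℕ →₀ T from x) N f
  map_add' _ _ := rfl
  map_smul' _ _ := rfl

theorem ev_ext {x : E} (h : ∀ N f, ev N f x = 0) : x = 0 := Finsupp.ext fun N => funext (h N)

theorem ev_fin (x : E) : {N | ∃ f, ev N f x ≠ 0}.Finite :=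
  (show ℕ →₀ T from x).support.finite_toSet.subset fun N ⟨f, hf⟩ =>
    Finsupp.mem_support_iff.2 fun h => hf (congrFun h f)

theorem ev_ex (N : ℕ) (f : D) : ∃ x : E, ev N f x = 1 ∧ f • x = 0 := by
  classical
  refine ⟨(Finsupp.single N (Pi.single f 1) : ℕ →₀ T), ?_, ?_⟩
  · show (Finsupp.single N (Pi.single f 1) : ℕ →₀ T) N f = 1
    simp
  · show f • (Finsupp.single N (Pi.single f 1) : ℕ →₀ T) = 0
    have : f • (1 : D ⧸ Ideal.span {f}) = 0 :=
      Ideal.Quotient.eq_zero_iff_mem.2 (by simp)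
    rw [Finsupp.smul_single, ← Pi.single_smul, this]
    simp

open TrivSqZeroExt

theorem snd_ap (x y : R) (N : ℕ) (f : D) : ev N f (x * y).snd =
    Ideal.Quotient.mk _ x.fst * ev N f y.snd + Ideal.Quotient.mk _ y.fst * ev N f x.snd := by
  rw [snd_mul, op_smul_eq_smul, map_add, map_smul, map_smul]; rfl

theorem key (I : Ideal R) (hI : Module.FinitePresentation R I) : I = ⊥ ∨ I = ⊤ := by
  classical
  obtain ⟨n, g, s, hg1, hg2, hg3⟩ := pres (R := R) I hI
  obtain ⟨N, hN⟩ := (s.finite_toSet.biUnion fun z _ =>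
    Set.finite_iUnion fun i => ev_fin (z i).snd).exists_notMem
  have hN' : ∀ z ∈ s, ∀ i f, ev N f (z i).snd = 0 := fun z hz i f => by
    by_contra h
    exact hN (Set.mem_biUnion hz (Set.mem_iUnion.2 ⟨i, f, h⟩))
  let Z : Submodule D (Fin n → D) :=
    { carrier := {v | ∃ z : Fin n → R, ∑ i, z i * g i = 0 ∧ ∀ i, (z i).fst = v i}
      zero_mem' := ⟨0, by simp, fun _ => rfl⟩
      add_mem' := by
        rintro _ _ ⟨z, hz, h⟩ ⟨w, hw, h'⟩
        exact ⟨z + w, by simp [add_mul, Finset.sum_add_distrib, hz, hw], fun i => by simp [h, h']⟩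
      smul_mem' := by
        rintro c _ ⟨z, hz, h⟩
        exact ⟨fun i => inl c * z i, by
          simp only [mul_assoc]; rw [← Finset.mul_sum, hz, mul_zero], fun i => by simp [h]⟩ }
  have main : ∀ (f : D) (z : Fin n → R), ∑ i, z i * g i = 0 →
      ∃ v ∈ Z, ∀ i, ev N f (z i).snd = Ideal.Quotient.mk _ (v i) := by
    intro f
    refine hg3 _ (fun z hz => ⟨0, Z.zero_mem, fun i => by rw [hN' z hz i]; rfl⟩)
      ⟨0, Z.zero_mem, fun i => by simp⟩ ?_ ?_
    · rintro z w ⟨v, hv, h⟩ ⟨u, hu, h'⟩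
      exact ⟨v + u, Z.add_mem hv hu, fun i => by simp [h, h']⟩
    · rintro c z hz' ⟨v, hv, h⟩
      obtain ⟨w, hw⟩ := Ideal.Quotient.mk_surjective (ev N f c.snd)
      refine ⟨c.fst • v + w • fun i => (z i).fst, Z.add_mem (Z.smul_mem _ hv)
        (Z.smul_mem _ ⟨z, hz', fun _ => rfl⟩), fun i => ?_⟩
      rw [snd_ap, h, ← hw]
      simp [mul_comm]
  have main' : ∀ i : Fin n, ∃ v ∈ Z, ∀ k, (g i).fst ∣ v k - (Pi.single i 1 : Fin n → D) k := by
    intro i
    obtain ⟨x, hx, hx'⟩ := ev_ex N (g i).fst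
    obtain ⟨v, hv, h⟩ := main (g i).fst (Pi.single i (inr x)) (by
        rw [Finset.sum_eq_single i (fun k _ hk => by simp [hk]) (by simp), Pi.single_eq_same]
        exact TrivSqZeroExt.ext (by simp) (by simp [hx']))
    refine ⟨v, hv, fun k => Ideal.mem_span_singleton.1 (Ideal.Quotient.eq.1 ?_)⟩
    rw [← h k]
    by_cases hk : k = i
    · subst hk; simp [hx]
    · simp [hk]
  by_cases h0 : ∀ i, (g i).fst = 0
  · left
    have : ∀ i, g i = 0 := fun i => by
      obtain ⟨v, ⟨z, h1, hzv⟩, h⟩ := main' i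
      rw [Finset.sum_eq_single i (fun k _ hk => ?_) (by simp)] at h1
      · have h2 : (z i).fst = 1 := by simpa [h0, hzv, sub_eq_zero] using h i
        exact ((isUnit_iff_isUnit_fst.2 (h2 ▸ isUnit_one)).mul_right_eq_zero).1 h1
      · have h2 : (z k).fst = 0 := by simpa [h0, hzv, hk] using h k
        refine TrivSqZeroExt.ext (by simp [h2]) ?_
        simp [h2, h0]
    rw [eq_bot_iff]
    intro x hx
    obtain ⟨z, h1⟩ := hg2 x hx
    simpa [this] using h1.symm
  · right
    push Not at h0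
    obtain ⟨i, hi⟩ := h0
    obtain ⟨v, ⟨z, hz, hzv⟩, h⟩ := main' i
    choose q hq using h
    have h1 := congrArg fst hz
    simp only [fst_sum, fst_mul, hzv, fst_zero] at h1
    have h2 : (g i).fst * (1 + ∑ k, q k * (g k).fst) = 0 := by
      rw [← h1, mul_add, Finset.mul_sum]
      simp only [← mul_assoc, ← hq, sub_mul, Finset.sum_sub_distrib]
      simp [Pi.single_apply]
    refine I.eq_top_of_isUnit_mem (hg1 fun k => inl (-q k)) (isUnit_iff_isUnit_fst.2 ?_)
    have h3 := (mul_eq_zero.1 h2).resolve_left hi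
    rw [fst_sum]
    simp only [fst_mul, fst_inl, neg_mul, Finset.sum_neg_distrib]
    rw [← eq_neg_of_add_eq_zero_left h3]
    exact isUnit_one

theorem dvd_of {f u : D} (h1 : f ∣ X * u) (h2 : f ∣ 2 * u) : f ∣ u := by
  obtain ⟨a, ha⟩ := h1
  obtain ⟨b, hb⟩ := h2
  by_cases hf : f = 0
  · subst hf
    rw [zero_mul, mul_eq_zero] at ha
    rw [ha.resolve_left X_ne_zero]
  have h3 : 2 * a = X * b := mul_left_cancel₀ hf (by linear_combination X * hb - 2 * ha)
  obtain ⟨c, rfl⟩ : (X : D) ∣ a := X_dvd_iff.2 (by simpa using congrArg (coeff · 0) h3)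
  exact ⟨c, mul_left_cancel₀ X_ne_zero (by linear_combination ha)⟩

theorem result : ∃ (R : Type) (_ : CommRing R),
    (∀ I : Ideal R, TwoPresented R (R ⧸ I) → Module.Projective R (R ⧸ I)) ∧
    ∃ (M : Type) (_ : AddCommGroup M) (_ : Module R M) (f₁ : (Fin 1 → R) →ₗ[R] (Fin 2 → R))
      (f₀ : (Fin 2 → R) →ₗ[R] M), Injective f₁ ∧ Exact f₁ f₀ ∧ Surjective f₀ ∧
        ¬ Module.Projective R M := by
  refine ⟨R, inferInstance, fun I hI => ?_, ?_⟩
  · rcases key I (schanuel I hI) with rfl | rfl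
    · exact Module.Projective.of_equiv (Submodule.quotEquivOfEqBot _ rfl).symm
    · infer_instance
  · refine nonproj (inl X) (inl 2) (fun x h0 h1 => ?_) fun a b h => ?_
    · have h2 : x.fst = 0 := by simpa using congrArg fst h0
      refine TrivSqZeroExt.ext h2 (ev_ext fun N f => ?_)
      obtain ⟨u, hu⟩ := Ideal.Quotient.mk_surjective (ev N f x.snd)
      have h3 := snd_ap x (inl X) N f
      have h4 := snd_ap x (inl 2) N f
      rw [h0, h2, snd_zero, map_zero, map_zero, zero_mul, zero_add, ← hu, fst_inl, ← map_mul] at h3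
      rw [h1, h2, snd_zero, map_zero, map_zero, zero_mul, zero_add, ← hu, fst_inl, ← map_mul] at h4
      rw [← hu]
      exact Ideal.Quotient.eq_zero_iff_mem.2 (Ideal.mem_span_singleton.2 (dvd_of
        (Ideal.mem_span_singleton.1 (Ideal.Quotient.eq_zero_iff_mem.1 h3.symm))
        (Ideal.mem_span_singleton.1 (Ideal.Quotient.eq_zero_iff_mem.1 h4.symm))))
    · have h3 := congrArg (fun x : R => x.fst.coeff 0) h
      simp at h3
      omega

end Pool.Agent.Results.MP_682377_al.Counter
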